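import Mathlib

/-!
# Density of the Riesz wavelets (MP_8a7e24_an, Larson's problem): definitions and statements

Frequency side.  `Kl ∪ Kh` is a wavelet set: its translates by integers tile `ℝ`, its dilates by the
powers of two tile `ℝ ∖ {0}`.  `Kl` is near `0`, `Kh` far from `0`.  The function `g` (the given function,
with a small set cut out) vanishes outside `Kh + ℤ` and on all sets `2^m Kh`.  Then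
`Ψ = ε 1_(Kl ∪ Kh) + g` generates a Riesz basis: if `U` is the unitary synthesis operator of
`1_(Kl ∪ Kh)` and `G` the synthesis operator of `g`, then `(G U⁻¹)² = 0`, so `ε U + G` is invertible.
-/

set_option autoImplicit false

open MeasureTheory Set Filter Topology
open scoped ENNReal ComplexConjugate

namespace Pool.Agent.H96.RW

/-- `Kl ∪ Kh` is a wavelet set (in the strict sense: everywhere, not only almost everywhere). -/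
structure WS (Kl Kh : Set ℝ) : Prop where
  ml : MeasurableSet Kl
  mh : MeasurableSet Kh
  dj : Disjoint Kl Kh
  tr : ∀ ξ : ℝ, ∃! n : ℤ, ξ + n ∈ Kl ∪ Kh
  di : ∀ ξ : ℝ, ξ ≠ 0 → ∃! j : ℤ, (2:ℝ) ^ (-j) * ξ ∈ Kl ∪ Kh
  bd : ∃ R : ℕ, ∀ ξ ∈ Kl ∪ Kh, (2:ℝ) ^ (-(R : ℤ)) ≤ |ξ| ∧ |ξ| ≤ (2:ℝ) ^ R

/-- The functions `g` which can be added. -/
structure Adm (Kh : Set ℝ) (g : ℝ → ℂ) : Prop where
  meas : Measurable g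
  bdd : ∃ C : ℝ, ∀ ξ, ‖g ξ‖ ≤ C
  supp : ∃ R : ℕ, ∀ ξ, g ξ ≠ 0 → (2:ℝ) ^ (-(R : ℤ)) ≤ |ξ| ∧ |ξ| ≤ (2:ℝ) ^ R
  high : ∀ ξ, g ξ ≠ 0 → ∃ n : ℤ, ξ + n ∈ Kh
  off : ∀ ξ, g ξ ≠ 0 → ∀ m : ℤ, (2:ℝ) ^ m * ξ ∉ Kh

/-- The Fourier transform of the wavelet. -/
noncomputable def Psi (Kl Kh : Set ℝ) (ε : ℝ) (g : ℝ → ℂ) (ξ : ℝ) : ℂ :=
  (Kl ∪ Kh).indicator (fun _ => (ε : ℂ)) ξ + g ξ

/-- `e (j, k) ξ = 2^(-j/2) exp (2 π i k 2^(-j) ξ)` -/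
noncomputable def ex (p : ℤ × ℤ) (ξ : ℝ) : ℂ :=
  (((2:ℝ) ^ (-(p.1 : ℝ) / 2) : ℝ) : ℂ) *
    Complex.exp (2 * Real.pi * Complex.I * (p.2 : ℂ) * (((2:ℝ) ^ (-p.1) * ξ : ℝ) : ℂ))

/-- The Fourier transforms of the functions `ψ_(j,k)`. -/
noncomputable def fr (Ψ : ℝ → ℂ) (p : ℤ × ℤ) (ξ : ℝ) : ℂ :=
  ex p ξ * Ψ ((2:ℝ) ^ (-p.1) * ξ)

/-- **M1, Riesz bounds.** Proof. Write `F j η = ∑_(p ∈ s, p.1 = j) c p exp (2 π i p.2 η)` (periodic),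
`K = Kl ∪ Kh`, `Ω = ⋃ m, 2^m Kh`, `h ξ = ∑ p, c p ex p ξ 1_K (2^(-p.1) ξ)`,
`G ξ = ∑ p, c p ex p ξ g (2^(-p.1) ξ)`, `H = ε h + G` the given sum. Unfolding: for `W ≥ 0` measurable
and `φ ≥ 0` periodic `∫⁻ W φ = ∫⁻_[0,1) (∑' n, W (η + n)) φ η`. Since the dilates of `K` are disjoint,
`|h|² = ∑ j, 2^(-j) |F j (2^(-j) ξ)|² 1_K (2^(-j) ξ)`, so `∫ |h|² = ∑ j ∫_K |F j|² = ∑ j ∫_[0,1) |F j|²
= ∑ |c p|²` and `∫_Ω |h|² = ∑ j ∫_Kh |F j|² =: X`. At most `2R + 1` of the `g (2^(-j) ξ)` are nonzero, so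
`∫ |G|² ≤ (2R+1) ∑ j ∫ |F j|² |g|² ≤ C' ∑ j ∫_[0,1) 1_(Kh + ℤ) |F j|² = C' X` (unfolding with `W = |g|²`,
`∑' n, |g (η + n)|² ≤ C'' 1_(Kh + ℤ) η`, and with `W = 1_Kh`). On `Ω` one has `G = 0` and `H = ε h`, so
`ε² X ≤ ∫ |H|²`; and `ε² |h|² ≤ 2 |H|² + 2 |G|²`, so `ε² ∑ |c p|² ≤ (2 + 2 C' / ε²) ∫ |H|²`. The upper
bound: `|H|² ≤ 2 ε² |h|² + 2 |G|²` and `X ≤ ∑ |c p|²`. -/
def M1 : Prop := ∀ (Kl Kh : Set ℝ) (ε : ℝ) (g : ℝ → ℂ), WS Kl Kh → Adm Kh g → 0 < ε →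
  ∃ A B : ℝ, 0 < A ∧ 0 < B ∧ ∀ (s : Finset (ℤ × ℤ)) (c : ℤ × ℤ → ℂ),
    ENNReal.ofReal (A * ∑ p ∈ s, ‖c p‖ ^ 2) ≤
      ∫⁻ ξ, ‖∑ p ∈ s, c p * fr (Psi Kl Kh ε g) p ξ‖ₑ ^ 2 ∧
    ∫⁻ ξ, ‖∑ p ∈ s, c p * fr (Psi Kl Kh ε g) p ξ‖ₑ ^ 2 ≤ ENNReal.ofReal (B * ∑ p ∈ s, ‖c p‖ ^ 2)

/-- **M2, completeness.** Proof. The functions `fr Ψ p` are in `L²` (`Ψ` is bounded with bounded
support). If their span were not dense, there would be `u ∈ L²`, `u ≠ 0`, with `∫ u (fr Ψ p) = 0` for all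
`p` (orthogonal complement in `Lp ℂ 2`; `u` is the complex conjugate of the orthogonal vector). Fix `j`
and put `v η = u (2^j η)`. Then `∫ v η Ψ η exp (2 π i k η) dη = 0` for all `k`, hence
(*) `∫ v Ψ φ = 0` for every bounded measurable `1`-periodic `φ`, since trigonometric polynomials are
dense in `L²` of the circle (`span_fourierLp_closure_eq_top` or `fourierBasis`), `v Ψ ∈ L²` has bounded
support. Let `κ η` be the point of `Kl ∪ Kh` congruent to `η` (`WS.tr`; `κ` is measurable).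
(1) `φ η = 1[κ η ∈ Kl] conj (sgn (v (κ η)))`: `g φ = 0` by `Adm.high` and `WS.tr`, `WS.dj`, so (*) says
`ε ∫_Kl |v| = 0`: `u = 0` almost everywhere on `2^j Kl`, for all `j`. (2) `φ η = 1[κ η ∈ Kh] conj (sgn
(v (κ η)))`: `v g = 0` almost everywhere, since `g ξ ≠ 0` implies `2^m ξ ∈ Kl` for some `m` (`Adm.off`,
`WS.di`) and `u = 0` almost everywhere on the sets `2^j Kl` by (1); so (*) says `ε ∫_Kh |v| = 0` and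
`u = 0` on `2^j Kh`. By `WS.di`, `u = 0` almost everywhere. -/
def M2 : Prop := ∀ (Kl Kh : Set ℝ) (ε : ℝ) (g : ℝ → ℂ), WS Kl Kh → Adm Kh g → 0 < ε →
  ∀ H : ℝ → ℂ, MemLp H 2 volume → ∀ δ : ℝ, 0 < δ → ∃ (s : Finset (ℤ × ℤ)) (c : ℤ × ℤ → ℂ),
    ∫⁻ ξ, ‖H ξ - ∑ p ∈ s, c p * fr (Psi Kl Kh ε g) p ξ‖ₑ ^ 2 < ENNReal.ofReal δ

/-- **M3, wavelet sets.** Proof. Let `n = 2^σ`, `P = 2^ρ` with `σ` large (depending on `r`, `δ` and a bound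
of `g₀`) and `ρ ≥ 2σ + r + 10`, `D = 2 P² - 1`,
`b = n / (P - 1)`, `c = n / (2 P - 1)`, `d = (2 P n - n - 1) / D`, `a = (P (n + 1) - n) / D`. Then
`P b = b + n`, `2 P c = c + n`, `P d = n - a`, `2 P a = n + 1 - d` (exact identities) and
`0 < a < b < 2 a`, `0 < c < d < 2 c`. Put
`Kl = [a, b) ∪ [-d, -c)`, `Kh = [b + n, n + 1 - d) ∪ [-c - n, a - n)`.
Translations: modulo `1` the four intervals are `[a, b)`, `[b, 1 - d)`, `[1 - d, 1 - c)`, `[1 - c, 1 + a)`,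
which tile `[a, a + 1)`. Dilations: `[a, b)` and `P⁻¹ [b + n, n + 1 - d) = [b, 2 a)` tile `[a, 2 a)`, whose
dilates tile `(0, ∞)`; `[-d, -c)` and `P⁻¹ [-c - n, a - n) = [-2 c, -d)` tile `[-2 c, -c)`, whose dilates
tile `(-∞, 0)`. Let `g = g₀` outside the union `B` of the intervals of radius `τ = 2^(r + 3 - σ)` about the
points `± 2^i`, `|i| ≤ r + 1`, and the integers `k` with `|k| ≤ 2^r + 1`, and `g = 0` on `B`; the integral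
of `|g₀|²` over `B` is at most `C² 2 τ (2 (2 r + 3) + 2^(r+1) + 3) < δ`. `Adm.high`: `g ξ ≠ 0` implies that
`ξ` is not in `Kl + ℤ` (which is within `2 n / P < τ` of the integers), so by the tiling `ξ ∈ Kh + ℤ`.
`Adm.off`: `[b, 2 a)` scaled by `P / n` is within `[1, 1 + 2 / n)`, and `[-2c, -d)` scaled by `P / n` is within
`2 / n` of `-1`; so `2^m ξ ∈ Kh`, `2^(-r) ≤ |ξ| ≤ 2^r` puts `ξ` within `τ` of some `± 2^i`, `|i| ≤ r + 1`. -/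
def M3 : Prop := ∀ (r : ℕ) (g₀ : ℝ → ℂ), Measurable g₀ → (∃ C : ℝ, ∀ ξ, ‖g₀ ξ‖ ≤ C) →
  (∀ ξ, g₀ ξ ≠ 0 → (2:ℝ) ^ (-(r : ℤ)) ≤ |ξ| ∧ |ξ| ≤ (2:ℝ) ^ r) → ∀ δ : ℝ, 0 < δ →
  ∃ Kl Kh : Set ℝ, WS Kl Kh ∧ volume (Kl ∪ Kh) ≤ 1 ∧ ∃ g : ℝ → ℂ, Adm Kh g ∧
    ∫⁻ ξ, ‖g₀ ξ - g ξ‖ₑ ^ 2 < ENNReal.ofReal δ

end Pool.Agent.H96.RW
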